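import Pool.Agent.Helper38.Curl.Rep

/-! Packet C-M1: radial mollifiers, basic facts. -/

set_option autoImplicit false

open MeasureTheory Set Filter Topology Metric
open scoped ContDiff RealInnerProductSpace
open Pool.Agent.Helper38.Curl

namespace Pool.Agent.Helper94.Curl

theorem kap0_contDiff : ContDiff ℝ ∞ kap0 := by
  have h1 : ContDiff ℝ ∞ (fun y : E => 1 - ‖y‖ ^ 2) := contDiff_const.sub (contDiff_norm_sq ℝ)
  exact expNegInvGlue.contDiff.comp h1

theorem kap0_nonneg (y : E) : 0 ≤ kap0 y := expNegInvGlue.nonneg _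

theorem kap0_pos {y : E} (hy : ‖y‖ < 1) : 0 < kap0 y := by
  apply expNegInvGlue.pos_of_pos
  have := norm_nonneg y
  nlinarith

theorem kap0_eq_zero {y : E} (hy : 1 ≤ ‖y‖) : kap0 y = 0 := by
  apply expNegInvGlue.zero_of_nonpos
  nlinarith

theorem kap0_compact : HasCompactSupport kap0 := by
  refine HasCompactSupport.intro (isCompact_closedBall (0 : E) 1) (fun y hy => ?_)
  apply kap0_eq_zero
  rw [mem_closedBall, dist_zero_right] at hy
  exact (not_le.1 hy).le

theorem integral_kap0_pos : 0 < ∫ z, kap0 z := by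
  apply kap0_contDiff.continuous.integral_pos_of_hasCompactSupport_nonneg_nonzero kap0_compact
    (fun y => kap0_nonneg y) (x := 0)
  exact (kap0_pos (by simp)).ne'

theorem kap_contDiff {r : ℝ} (_hr : 0 < r) : ContDiff ℝ ∞ (kap r) := by
  unfold kap
  exact contDiff_const.mul (kap0_contDiff.comp (contDiff_const_smul r⁻¹))

theorem kap_nonneg {r : ℝ} (hr : 0 < r) (y : E) : 0 ≤ kap r y := by
  unfold kap
  exact mul_nonneg (mul_nonneg (inv_nonneg.2 integral_kap0_pos.le)
    (inv_nonneg.2 (pow_nonneg hr.le 3))) (kap0_nonneg _)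

theorem kap_pos {r : ℝ} {y : E} (hy : ‖y‖ < r) : 0 < kap r y := by
  have hr : 0 < r := (norm_nonneg y).trans_lt hy
  unfold kap
  have h2 : 0 < kap0 (r⁻¹ • y) := by
    apply kap0_pos
    rw [norm_smul, norm_inv, Real.norm_eq_abs, abs_of_pos hr, inv_mul_lt_iff₀ hr, mul_one]
    exact hy
  exact mul_pos (mul_pos (inv_pos.2 integral_kap0_pos) (inv_pos.2 (pow_pos hr 3))) h2

theorem kap_eq_zero {r : ℝ} (hr : 0 < r) {y : E} (hy : r ≤ ‖y‖) : kap r y = 0 := by
  unfold kap
  have h2 : kap0 (r⁻¹ • y) = 0 := by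
    apply kap0_eq_zero
    rw [norm_smul, norm_inv, Real.norm_eq_abs, abs_of_pos hr, le_inv_mul_iff₀ hr, mul_one]
    exact hy
  rw [h2, mul_zero]

theorem integral_kap {r : ℝ} (hr : 0 < r) : ∫ y, kap r y = 1 := by
  unfold kap
  rw [integral_const_mul, Measure.integral_comp_smul]
  have h1 := integral_kap0_pos
  have h3 : Module.finrank ℝ E = 3 := by simp [E]
  rw [h3, smul_eq_mul, inv_pow, inv_inv, abs_of_pos (pow_pos hr 3)]
  field_simp

theorem kap_radial {r : ℝ} {y z : E} (h : ‖y‖ = ‖z‖) : kap r y = kap r z := by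
  unfold kap kap0
  rw [norm_smul, norm_smul, h]

theorem kap_scale {r s : ℝ} (hr : 0 < r) (hs : 0 < s) (y : E) :
    kap (s * r) (s • y) = (s ^ 3)⁻¹ * kap r y := by
  unfold kap
  have h1 : (s * r)⁻¹ • s • y = r⁻¹ • y := by
    rw [smul_smul]
    congr 1
    field_simp
  rw [h1, mul_pow, mul_inv]
  ring

theorem kap_compact {r : ℝ} (hr : 0 < r) : HasCompactSupport (kap r) := by
  refine HasCompactSupport.intro (isCompact_closedBall (0 : E) r) (fun y hy => ?_)
  apply kap_eq_zero hr
  rw [mem_closedBall, dist_zero_right] at hy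
  exact (not_le.1 hy).le

theorem mol_contDiff {v : E → E} (hv : LocallyIntegrable v) {r : ℝ} (hr : 0 < r) :
    ContDiff ℝ ∞ (mol r v) := by
  have h1 := (kap_compact hr).contDiff_convolution_right
    (ContinuousLinearMap.lsmul ℝ ℝ : ℝ →L[ℝ] E →L[ℝ] E).flip hv (kap_contDiff hr)
  exact h1

theorem mol_van {C : Set E} {v : E → E} (h : VanOff C v) {r : ℝ} (hr : 0 < r) {x : E}
    (hx : x ∉ cthickening r C) : mol r v x = 0 := by
  unfold mol
  apply integral_eq_zero_of_ae
  filter_upwards [h] with y hy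
  by_cases hyC : y ∈ C
  · have h1 : kap r (x - y) = 0 := by
      apply kap_eq_zero hr
      by_contra hcon
      push Not at hcon
      apply hx
      apply mem_cthickening_of_dist_le x y r C hyC
      rw [dist_eq_norm]
      exact hcon.le
    rw [h1, zero_smul]
    rfl
  · rw [hy hyC, smul_zero]
    rfl

theorem mol_test {v : E → E} (hv : MemLp v 2) {R : ℝ} (h : VanOff (closedBall 0 R) v) {r : ℝ}
    (hr : 0 < r) : Test (mol r v) := by
  refine ⟨mol_contDiff (hv.locallyIntegrable (by norm_num)) hr, ?_⟩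
  exact HasCompactSupport.intro (isCompact_closedBall (0 : E) R).cthickening
    (fun x hx => mol_van h hr hx)

theorem mol_bl (u : E → E) (x z : E) {s r : ℝ} (hs : 0 < s) (hr : 0 < r) :
    mol r (bl u x s) z = mol (s * r) u (x + s • z) := by
  unfold mol bl
  have h3 : Module.finrank ℝ E = 3 := by simp [E]
  have h1 : ∫ y, kap (s * r) (x + s • z - y) • u y =
      ∫ y, kap (s * r) (x + s • z - (x + y)) • u (x + y) :=
    (integral_add_left_eq_self (fun y => kap (s * r) (x + s • z - y) • u y) x).symm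
  have h2 := Measure.integral_comp_smul (μ := (volume : Measure E))
    (fun y => kap (s * r) (x + s • z - (x + y)) • u (x + y)) s
  rw [h3, abs_of_pos (inv_pos.2 (pow_pos hs 3))] at h2
  have h4 : ∀ y : E, kap (s * r) (x + s • z - (x + s • y)) • u (x + s • y) =
      (s ^ 3)⁻¹ • (kap r (z - y) • u (x + s • y)) := by
    intro y
    have h5 : x + s • z - (x + s • y) = s • (z - y) := by
      rw [smul_sub]
      abel
    rw [h5, kap_scale hr hs, smul_smul]
  simp only [h4] at h2
  rw [integral_smul] at h2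
  have h6 : (s ^ 3)⁻¹ ≠ 0 := (inv_pos.2 (pow_pos hs 3)).ne'
  have h7 := smul_right_injective E h6 h2
  rw [h7, h1]

end Pool.Agent.Helper94.Curl
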