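import Pool.Agent.Helper94.Curl.Sd

/-! Packet C-G3: blow-up of the domain. -/

set_option autoImplicit false

open MeasureTheory Set Filter Topology Metric
open scoped ContDiff RealInnerProductSpace
open Pool.Agent.Helper38.Curl

namespace Pool.Agent.Helper94.Curl

/-- A compactness theorem for Lipschitz functions with the same constant. -/
theorem exists_subseq_lip (f : ℕ → E → ℝ) (hl : ∀ n, LipschitzWith 1 (f n))
    (h0 : ∀ n, f n 0 = 0) :
    ∃ σ : ℕ → ℕ, StrictMono σ ∧ ∃ g : E → ℝ, LipschitzWith 1 g ∧ g 0 = 0 ∧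
      (∀ z, Tendsto (fun n => f (σ n) z) atTop (𝓝 (g z))) ∧
      ∀ R, TendstoUniformlyOn (fun n => f (σ n)) g atTop (closedBall 0 R) := by
  classical
  have hlip : ∀ n z w, |f n z - f n w| ≤ dist z w := by
    intro n z w
    have := (hl n).dist_le_mul z w
    rw [Real.dist_eq] at this
    simpa using this
  have hbd : ∀ n z, f n z ∈ Icc (-‖z‖) ‖z‖ := by
    intro n z
    have := hlip n z 0
    rw [h0, sub_zero, dist_zero_right] at this
    exact abs_le.1 this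
  let d : ℕ → E := TopologicalSpace.denseSeq E
  have hd : DenseRange d := TopologicalSpace.denseRange_denseSeq E
  have hK : IsCompact (Set.pi univ fun k : ℕ => Icc (-‖d k‖) ‖d k‖) :=
    isCompact_univ_pi fun k => isCompact_Icc
  obtain ⟨a, -, σ, hσ, ha⟩ := hK.tendsto_subseq (x := fun n k => f n (d k))
    (fun n k _ => hbd n (d k))
  rw [tendsto_pi_nhds] at ha
  have hcau : ∀ z, ∃ b : ℝ, Tendsto (fun n => f (σ n) z) atTop (𝓝 b) := by
    intro z
    apply cauchySeq_tendsto_of_complete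
    rw [Metric.cauchySeq_iff]
    intro ε hε
    obtain ⟨k, hk⟩ := hd.exists_dist_lt z (show 0 < ε / 4 by positivity)
    have hc := (ha k).cauchySeq
    rw [Metric.cauchySeq_iff] at hc
    obtain ⟨N, hN⟩ := hc (ε / 4) (by positivity)
    refine ⟨N, fun m hm n hn => ?_⟩
    have h1 := hN m hm n hn
    simp only [Function.comp_apply, Real.dist_eq] at h1
    have h2 := hlip (σ m) z (d k)
    have h3 := hlip (σ n) z (d k)
    rw [Real.dist_eq]
    rw [abs_lt] at h1 ⊢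
    rw [abs_le] at h2 h3
    constructor <;> linarith [h1.1, h1.2, h2.1, h2.2, h3.1, h3.2]
  choose g hg using hcau
  have hgl : ∀ z w, |g z - g w| ≤ dist z w := by
    intro z w
    have h1 : Tendsto (fun n => |f (σ n) z - f (σ n) w|) atTop (𝓝 |g z - g w|) :=
      ((hg z).sub (hg w)).abs
    exact le_of_tendsto' h1 (fun n => hlip (σ n) z w)
  refine ⟨σ, hσ, g, ?_, ?_, hg, ?_⟩
  · apply LipschitzWith.of_dist_le_mul
    intro z w
    rw [Real.dist_eq]
    simpa using hgl z w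
  · exact tendsto_nhds_unique (hg 0) (by simp [h0])
  · intro R
    rw [Metric.tendstoUniformlyOn_iff]
    intro ε hε
    obtain ⟨t, ht, htf, htc⟩ := (isCompact_closedBall (0 : E) R).finite_cover_balls
      (show 0 < ε / 4 by positivity)
    have hev : ∀ᶠ n in atTop, ∀ c ∈ t, |f (σ n) c - g c| < ε / 4 := by
      rw [eventually_all_finite htf]
      intro c _
      have := (Metric.tendsto_nhds.1 (hg c)) (ε / 4) (by positivity)
      simpa only [Real.dist_eq] using this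
    filter_upwards [hev] with n hn z hz
    obtain ⟨c, hc, hzc⟩ := mem_iUnion₂.1 (htc hz)
    have h1 := hn c hc
    have h2 := hlip (σ n) z c
    have h3 := hgl z c
    rw [mem_ball] at hzc
    rw [Real.dist_eq]
    rw [abs_lt] at h1 ⊢
    rw [abs_le] at h2 h3
    constructor <;> linarith [h1.1, h1.2, h2.1, h2.2, h3.1, h3.2]

/-- A function on the natural numbers with values in a finite set is constant along a
subsequence. -/
theorem exists_subseq_const {α : Type*} (F : Finset α) (v : ℕ → α) (hv : ∀ n, v n ∈ F) :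
    ∃ ν ∈ F, ∃ σ : ℕ → ℕ, StrictMono σ ∧ ∀ n, v (σ n) = ν := by
  classical
  by_contra hcon
  push Not at hcon
  have h1 : ∀ ν ∈ F, ¬ ∃ᶠ n in atTop, v n = ν := by
    intro ν hν hf
    obtain ⟨σ, hσ, h⟩ := Filter.extraction_of_frequently_atTop hf
    obtain ⟨n, hn⟩ := hcon ν hν σ hσ
    exact hn (h n)
  have h2 : ∀ᶠ n in atTop, ∀ ν ∈ F, v n ≠ ν := by
    rw [eventually_all_finset]
    intro ν hν
    exact not_frequently.1 (h1 ν hν)
  obtain ⟨n, hn⟩ := h2.exists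
  exact hn (v n) (hv n) rfl

theorem blow_geo {Ω : Set E} (ho : IsOpen Ω) (hb : Bornology.IsBounded Ω) (hn : Ω.Nonempty)
    {r₀ c₀ : ℝ} {F : Finset E} (h : Trans Ω r₀ c₀ F) {x : ℕ → E} (hx : ∀ n, x n ∈ frontier Ω)
    {s : ℕ → ℝ} (hs : ∀ n, 0 < s n) (hs0 : Tendsto s atTop (𝓝 0)) :
    ∃ σ : ℕ → ℕ, StrictMono σ ∧ ∃ (ν : E) (g : E → ℝ), ‖ν‖ = 1 ∧ LipschitzWith 1 g ∧ g 0 = 0 ∧
      (∀ R, TendstoUniformlyOn (fun n z => sd Ω (x (σ n) + s (σ n) • z) / s (σ n)) g atTop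
        (closedBall 0 R)) ∧
      (∀ z, g z = 0 → ∀ t, 0 ≤ t → c₀ * t ≤ g (z + t • ν) ∧ g (z - t • ν) ≤ -(c₀ * t)) ∧
      (∀ n, ∀ y ∈ frontier Ω ∩ ball (x (σ n)) r₀, ∀ t ∈ Icc (0 : ℝ) r₀,
        c₀ * t ≤ sd Ω (y + t • ν) ∧ sd Ω (y - t • ν) ≤ -(c₀ * t)) := by
  classical
  have hn' : Ωᶜ.Nonempty := by
    rw [nonempty_compl]
    intro he
    rw [he] at hb
    have hcp : IsCompact (univ : Set E) := Metric.isCompact_of_isClosed_isBounded isClosed_univ hb
    exact noncompact_univ E hcp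
  -- the blow-ups
  set f : ℕ → E → ℝ := fun n z => sd Ω (x n + s n • z) / s n with hf
  have hfl : ∀ n z w, |f n z - f n w| ≤ dist z w := by
    intro n z w
    have h1 := lipschitz_sd Ω hn hn' (x n + s n • z) (x n + s n • w)
    rw [add_sub_add_left_eq_sub, ← smul_sub, norm_smul, Real.norm_eq_abs, abs_of_pos (hs n)] at h1
    rw [hf]
    simp only
    rw [← sub_div, abs_div, abs_of_pos (hs n), div_le_iff₀ (hs n), dist_eq_norm, mul_comm]
    exact h1
  have hfl' : ∀ n, LipschitzWith 1 (f n) := by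
    intro n
    apply LipschitzWith.of_dist_le_mul
    intro z w
    rw [Real.dist_eq]
    simpa using hfl n z w
  have hf0 : ∀ n, f n 0 = 0 := by
    intro n
    rw [hf]
    simp only [smul_zero, add_zero]
    rw [(sd_eq_zero_iff ho hn hn').2 (hx n), zero_div]
  -- choice of the direction
  have hch : ∀ n, ∃ ν ∈ F, ∀ y ∈ frontier Ω ∩ ball (x n) r₀, ∀ t ∈ Icc (0 : ℝ) r₀,
      c₀ * t ≤ sd Ω (y + t • ν) ∧ sd Ω (y - t • ν) ≤ -(c₀ * t) := fun n => h.main (x n) (hx n)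
  choose v hv1 hv2 using hch
  obtain ⟨ν, hν, σ₁, hσ₁, hσν⟩ := exists_subseq_const F v hv1
  obtain ⟨σ₂, hσ₂, g, hg, hg0, hpt, hun⟩ := exists_subseq_lip (fun n => f (σ₁ n))
    (fun n => hfl' _) (fun n => hf0 _)
  have hσ : StrictMono (fun n => σ₁ (σ₂ n)) := hσ₁.comp hσ₂
  have hlast : ∀ n, ∀ y ∈ frontier Ω ∩ ball (x (σ₁ (σ₂ n))) r₀, ∀ t ∈ Icc (0 : ℝ) r₀,
        c₀ * t ≤ sd Ω (y + t • ν) ∧ sd Ω (y - t • ν) ≤ -(c₀ * t) := by
    intro n y hy t ht
    have := hv2 (σ₁ (σ₂ n)) y hy t ht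
    rwa [hσν] at this
  refine ⟨fun n => σ₁ (σ₂ n), hσ, ν, g, h.unit ν hν, hg, hg0, hun, ?_, hlast⟩
  intro z hz t ht
  -- points of the boundary close to `z`
  have hex : ∀ n, ∃ w : E, x (σ₁ (σ₂ n)) + s (σ₁ (σ₂ n)) • w ∈ frontier Ω ∧
      dist z w = |f (σ₁ (σ₂ n)) z| := by
    intro n
    obtain ⟨y, hy, hyd⟩ := exists_frontier_dist ho hn hn'
      (x (σ₁ (σ₂ n)) + s (σ₁ (σ₂ n)) • z)
    have hsp := hs (σ₁ (σ₂ n))
    refine ⟨(s (σ₁ (σ₂ n)))⁻¹ • (y - x (σ₁ (σ₂ n))), ?_, ?_⟩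
    · rw [smul_inv_smul₀ hsp.ne', add_sub_cancel]
      exact hy
    · rw [hf]
      simp only
      rw [abs_div, abs_of_pos hsp, ← hyd, dist_eq_norm]
      have : z - (s (σ₁ (σ₂ n)))⁻¹ • (y - x (σ₁ (σ₂ n))) =
          (s (σ₁ (σ₂ n)))⁻¹ • (x (σ₁ (σ₂ n)) + s (σ₁ (σ₂ n)) • z - y) := by
        rw [smul_sub, smul_sub, smul_add, inv_smul_smul₀ hsp.ne']
        abel
      rw [this, norm_smul, norm_inv, Real.norm_eq_abs, abs_of_pos hsp]
      field_simp
  choose w hw hwd using hex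
  have hdw : Tendsto (fun n => dist z (w n)) atTop (𝓝 0) := by
    have h1 := (hpt z).abs
    rw [hz, abs_zero] at h1
    exact h1.congr (fun n => (hwd n).symm)
  have hs' : Tendsto (fun n => s (σ₁ (σ₂ n))) atTop (𝓝 0) := hs0.comp hσ.tendsto_atTop
  -- eventually the points are in the range of the transversality
  have hev1 : ∀ᶠ n in atTop, s (σ₁ (σ₂ n)) * ‖w n‖ < r₀ := by
    have h1 : Tendsto (fun n => s (σ₁ (σ₂ n)) * (‖z‖ + dist z (w n))) atTop (𝓝 (0 * (‖z‖ + 0))) :=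
      hs'.mul (tendsto_const_nhds.add hdw)
    rw [zero_mul] at h1
    filter_upwards [h1.eventually (gt_mem_nhds h.rpos)] with n hn1
    refine lt_of_le_of_lt ?_ hn1
    apply mul_le_mul_of_nonneg_left _ (hs _).le
    have := norm_sub_norm_le (w n) z
    rw [dist_comm, dist_eq_norm]
    linarith
  have hev2 : ∀ᶠ n in atTop, s (σ₁ (σ₂ n)) * t < r₀ := by
    have h1 := hs'.mul_const t
    rw [zero_mul] at h1
    exact h1.eventually (gt_mem_nhds h.rpos)
  have hev : ∀ᶠ n in atTop, c₀ * t ≤ f (σ₁ (σ₂ n)) (w n + t • ν) ∧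
      f (σ₁ (σ₂ n)) (w n - t • ν) ≤ -(c₀ * t) := by
    filter_upwards [hev1, hev2] with n hn1 hn2
    have hsp := hs (σ₁ (σ₂ n))
    have hmem : x (σ₁ (σ₂ n)) + s (σ₁ (σ₂ n)) • w n ∈
        frontier Ω ∩ ball (x (σ₁ (σ₂ n))) r₀ := by
      refine ⟨hw n, ?_⟩
      rw [mem_ball, dist_eq_norm, add_sub_cancel_left, norm_smul, Real.norm_eq_abs,
        abs_of_pos hsp]
      exact hn1
    obtain ⟨h1, h2⟩ := hlast n _ hmem (s (σ₁ (σ₂ n)) * t) ⟨by positivity, hn2.le⟩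
    rw [hf]
    simp only
    constructor
    · rw [le_div_iff₀ hsp]
      have e1 : x (σ₁ (σ₂ n)) + s (σ₁ (σ₂ n)) • (w n + t • ν) =
          x (σ₁ (σ₂ n)) + s (σ₁ (σ₂ n)) • w n + (s (σ₁ (σ₂ n)) * t) • ν := by
        rw [smul_add, smul_smul, add_assoc]
      rw [e1]
      linarith
    · rw [div_le_iff₀ hsp]
      have e1 : x (σ₁ (σ₂ n)) + s (σ₁ (σ₂ n)) • (w n - t • ν) =
          x (σ₁ (σ₂ n)) + s (σ₁ (σ₂ n)) • w n - (s (σ₁ (σ₂ n)) * t) • ν := by
        rw [smul_sub, smul_smul, add_sub_assoc]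
      rw [e1]
      linarith
  -- passage to the limit
  have hlim : ∀ b : E, Tendsto (fun n => f (σ₁ (σ₂ n)) (w n + b)) atTop (𝓝 (g (z + b))) := by
    intro b
    have h1 := hpt (z + b)
    have h2 : Tendsto (fun n => f (σ₁ (σ₂ n)) (w n + b) - f (σ₁ (σ₂ n)) (z + b)) atTop (𝓝 0) := by
      apply squeeze_zero_norm _ hdw
      intro n
      rw [Real.norm_eq_abs]
      refine (hfl _ _ _).trans ?_
      rw [dist_add_right, dist_comm]
    have h3 := h2.add h1
    rw [zero_add] at h3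
    refine h3.congr (fun n => ?_)
    ring
  constructor
  · exact ge_of_tendsto (hlim (t • ν)) (hev.mono fun n hn => hn.1)
  · have h3 := hlim (-(t • ν))
    rw [← sub_eq_add_neg] at h3
    refine le_of_tendsto h3 (hev.mono fun n hn => ?_)
    rw [← sub_eq_add_neg]
    exact hn.2

end Pool.Agent.Helper94.Curl
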