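import Pool.Agent.Helper94.Curl.Sd

/-! Packet C-G2: null boundaries and connectedness of the limit domain. -/

set_option autoImplicit false

open MeasureTheory Set Filter Topology Metric
open scoped ContDiff RealInnerProductSpace Pointwise
open Pool.Agent.Helper38.Curl

namespace Pool.Agent.Helper94.Curl

/-- A measurable set which meets every short segment in a fixed direction at most once is a null
set. -/
theorem null_of_dir {S : Set E} (hS : MeasurableSet S) (ν : E) {r : ℝ} (hr : 0 < r)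
    (hd : ∀ z ∈ S, ∀ t : ℝ, 0 < t → t ≤ r → z + t • ν ∉ S) : volume S = 0 := by
  set c : ℕ → ℝ := fun n => r / ((n : ℝ) + 1) with hc
  have hc0 : ∀ n, 0 < c n := fun n => by rw [hc]; positivity
  have hcr : ∀ n, c n ≤ r := fun n => by
    rw [hc]
    apply div_le_self hr.le
    have : (0 : ℝ) ≤ n := Nat.cast_nonneg n
    linarith
  have hcn : ∀ m n, c m = c n → m = n := by
    intro m n h
    rw [hc] at h
    simp only at h
    have h1 : (0 : ℝ) < (m : ℝ) + 1 := by positivity
    have h2 : (0 : ℝ) < (n : ℝ) + 1 := by positivity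
    rw [div_eq_div_iff h1.ne' h2.ne'] at h
    have h3 := mul_left_cancel₀ hr.ne' h
    have h4 : (m : ℝ) = n := by linarith
    exact_mod_cast h4
  apply Measure.addHaar_eq_zero_of_disjoint_translates volume (fun n => c n • ν) ?_ ?_ hS
  · rw [isBounded_iff_forall_norm_le]
    refine ⟨r * ‖ν‖, ?_⟩
    rintro _ ⟨n, rfl⟩
    rw [norm_smul, Real.norm_eq_abs, abs_of_pos (hc0 n)]
    exact mul_le_mul_of_nonneg_right (hcr n) (norm_nonneg ν)
  · have aux : ∀ m n, c n < c m → Disjoint (({c m • ν} : Set E) + S) (({c n • ν} : Set E) + S) := by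
      intro m n hmn
      rw [Set.disjoint_left]
      intro w hw1 hw2
      rw [singleton_add] at hw1 hw2
      obtain ⟨z, hz, rfl⟩ := hw1
      obtain ⟨z', hz', he⟩ := hw2
      apply hd z hz (c m - c n) (by linarith) (by linarith [hcr m, hc0 n])
      have : z + (c m - c n) • ν = z' := by
        simp only at he
        rw [sub_smul]
        have h1 : z' = c m • ν + z - c n • ν := by
          rw [← he]; abel
        rw [h1]; abel
      rw [this]
      exact hz'
    intro m n hmn
    rcases lt_trichotomy (c n) (c m) with h | h | h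
    · exact aux m n h
    · exact absurd (hcn n m h).symm hmn
    · exact (aux n m h).symm

theorem frontier_null {Ω : Set E} (ho : IsOpen Ω) (hb : Bornology.IsBounded Ω)
    (hn : Ω.Nonempty) {r₀ c₀ : ℝ} {F : Finset E} (h : Trans Ω r₀ c₀ F) :
    volume (frontier Ω) = 0 := by
  have hn' : Ωᶜ.Nonempty := by
    rw [nonempty_compl]
    intro he
    rw [he] at hb
    have hcp : IsCompact (univ : Set E) := Metric.isCompact_of_isClosed_isBounded isClosed_univ hb
    exact noncompact_univ E hcp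
  apply measure_null_of_locally_null
  intro x hx
  obtain ⟨ν, hν, hm⟩ := h.main x hx
  refine ⟨frontier Ω ∩ ball x r₀, ?_, ?_⟩
  · exact inter_mem self_mem_nhdsWithin (mem_nhdsWithin_of_mem_nhds (ball_mem_nhds x h.rpos))
  · apply null_of_dir (isClosed_frontier.measurableSet.inter measurableSet_ball) ν h.rpos
    intro z hz t ht ht' hmem
    have h1 := (hm z hz t ⟨ht.le, ht'⟩).1
    rw [(sd_eq_zero_iff ho hn hn').2 hmem.1] at h1
    have := mul_pos h.cpos ht
    linarith

theorem limit_null {c₀ : ℝ} (hc : 0 < c₀) {ν : E} {g : E → ℝ} (hν : ‖ν‖ = 1)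
    (hl : LipschitzWith 1 g)
    (ht : ∀ z, g z = 0 → ∀ t, 0 ≤ t → c₀ * t ≤ g (z + t • ν) ∧ g (z - t • ν) ≤ -(c₀ * t)) :
    volume {z | g z = 0} = 0 := by
  apply null_of_dir (isClosed_eq hl.continuous continuous_const).measurableSet ν one_pos
  intro z hz t ht0 _ hmem
  have h1 := (ht z hz t ht0.le).1
  rw [Set.mem_ofPred_eq] at hmem
  rw [hmem] at h1
  have := mul_pos hc ht0
  linarith

theorem limit_up {c₀ : ℝ} (hc : 0 < c₀) {ν : E} {g : E → ℝ}
    (hl : LipschitzWith 1 g)
    (ht : ∀ z, g z = 0 → ∀ t, 0 ≤ t → c₀ * t ≤ g (z + t • ν) ∧ g (z - t • ν) ≤ -(c₀ * t))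
    {z : E} (hz : 0 < g z) {t : ℝ} (ht0 : 0 ≤ t) : 0 < g (z + t • ν) := by
  by_contra hcon
  rw [not_lt] at hcon
  have hcont : ContinuousOn (fun τ : ℝ => g (z + τ • ν)) (Icc 0 t) :=
    (hl.continuous.comp (by fun_prop)).continuousOn
  have hiv := intermediate_value_Icc' ht0 hcont
  have hmem : (0 : ℝ) ∈ Icc (g (z + t • ν)) (g (z + (0 : ℝ) • ν)) := by
    rw [zero_smul, add_zero]
    exact ⟨hcon, hz.le⟩
  obtain ⟨t1, ht1, ht2⟩ := hiv hmem
  have h1 := (ht (z + t1 • ν) ht2 t1 ht1.1).2
  rw [add_sub_cancel_right] at h1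
  have := mul_nonneg hc.le ht1.1
  linarith

theorem limit_preconnected {c₀ : ℝ} (hc : 0 < c₀) {ν : E} {g : E → ℝ} (hν : ‖ν‖ = 1)
    (hl : LipschitzWith 1 g) (h0 : g 0 = 0)
    (ht : ∀ z, g z = 0 → ∀ t, 0 ≤ t → c₀ * t ≤ g (z + t • ν) ∧ g (z - t • ν) ≤ -(c₀ * t)) :
    IsPreconnected {z | 0 < g z} := by
  have hlip : ∀ z w, |g z - g w| ≤ ‖z - w‖ := by
    intro z w
    have := hl.dist_le_mul z w
    rw [Real.dist_eq, dist_eq_norm] at this
    simpa using this
  apply isPreconnected_of_forall_pair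
  intro z hz z' hz'
  rw [Set.mem_ofPred_eq] at hz hz'
  set T : ℝ := (‖z‖ + ‖z'‖ + 1) / c₀ with hT
  have hT0 : 0 ≤ T := by rw [hT]; positivity
  have hcT : c₀ * T = ‖z‖ + ‖z'‖ + 1 := by
    rw [hT]; field_simp
  have hup : ∀ w, 0 < g w → segment ℝ w (w + T • ν) ⊆ {z | 0 < g z} := by
    intro w hw p hp
    rw [segment_eq_image'] at hp
    obtain ⟨θ, hθ, rfl⟩ := hp
    simp only [add_sub_cancel_left, Set.mem_ofPred_eq]
    rw [smul_smul]
    exact limit_up hc hl ht hw (mul_nonneg hθ.1 hT0)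
  have hmid : segment ℝ (z + T • ν) (z' + T • ν) ⊆ {z | 0 < g z} := by
    intro p hp
    obtain ⟨a, b, ha, hb, hab, rfl⟩ := hp
    rw [Set.mem_ofPred_eq]
    have e1 : a • (z + T • ν) + b • (z' + T • ν) = (a • z + b • z') + T • ν := by
      rw [smul_add, smul_add, add_add_add_comm, ← add_smul, hab, one_smul]
    rw [e1]
    have h1 := hlip ((a • z + b • z') + T • ν) (T • ν)
    rw [add_sub_cancel_right] at h1
    have h2 := (ht 0 h0 T hT0).1
    rw [zero_add, hcT] at h2
    have h3 : ‖a • z + b • z'‖ ≤ ‖z‖ + ‖z'‖ := by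
      refine (norm_add_le _ _).trans ?_
      rw [norm_smul, norm_smul, Real.norm_eq_abs, Real.norm_eq_abs, abs_of_nonneg ha,
        abs_of_nonneg hb]
      have ha1 : a ≤ 1 := by linarith
      have hb1 : b ≤ 1 := by linarith
      exact add_le_add (mul_le_of_le_one_left (norm_nonneg z) ha1)
        (mul_le_of_le_one_left (norm_nonneg z') hb1)
    rw [abs_le] at h1
    linarith [h1.1]
  refine ⟨segment ℝ z (z + T • ν) ∪ segment ℝ (z + T • ν) (z' + T • ν) ∪
    segment ℝ z' (z' + T • ν), ?_, ?_, ?_, ?_⟩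
  · exact union_subset (union_subset (hup z hz) hmid) (hup z' hz')
  · exact Or.inl (Or.inl (left_mem_segment ℝ _ _))
  · exact Or.inr (left_mem_segment ℝ _ _)
  · apply IsPreconnected.union (z' + T • ν)
    · exact Or.inr (right_mem_segment ℝ _ _)
    · exact right_mem_segment ℝ _ _
    · apply IsPreconnected.union (z + T • ν)
      · exact right_mem_segment ℝ _ _
      · exact left_mem_segment ℝ _ _
      · exact (convex_segment _ _).isPreconnected
      · exact (convex_segment _ _).isPreconnected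
    · exact (convex_segment _ _).isPreconnected

end Pool.Agent.Helper94.Curl
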