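import Pool.Agent.Helper38.Curl.Rep

/-! Packet C-G5: signed distance. -/

set_option autoImplicit false

open MeasureTheory Set Filter Topology Metric
open scoped ContDiff RealInnerProductSpace
open Pool.Agent.Helper38.Curl

namespace Pool.Agent.Helper94.Curl

theorem sd_of_mem {Ω : Set E} {x : E} (hx : x ∈ Ω) : sd Ω x = infDist x Ωᶜ := by
  unfold sd
  rw [infDist_zero_of_mem hx, sub_zero]

theorem sd_of_notMem {Ω : Set E} {x : E} (hx : x ∉ Ω) : sd Ω x = -infDist x Ω := by
  unfold sd
  rw [infDist_zero_of_mem (show x ∈ Ωᶜ from hx), zero_sub]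

theorem exists_frontier_segment {Ω : Set E} {x y : E} (hx : x ∈ Ω) (hy : y ∉ Ω) :
    ∃ w ∈ frontier Ω, dist x w + dist w y = dist x y := by
  have h1 : IsPreconnected (segment ℝ x y) := (convex_segment x y).isPreconnected
  by_contra hcon
  have key : ∀ w ∈ segment ℝ x y, w ∉ frontier Ω := fun w hw hf =>
    hcon ⟨w, hf, dist_add_dist_of_mem_segment hw⟩
  have hcov : segment ℝ x y ⊆ interior Ω ∪ (closure Ω)ᶜ := by
    intro w hw
    by_cases hc : w ∈ closure Ω
    · left
      by_contra hi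
      exact key w hw ⟨hc, hi⟩
    · exact Or.inr hc
  have hxi : x ∈ interior Ω := by
    by_contra hi
    exact key x (left_mem_segment ℝ x y) ⟨subset_closure hx, hi⟩
  have hyi : y ∈ (closure Ω)ᶜ := by
    intro hc
    exact key y (right_mem_segment ℝ x y) ⟨hc, fun hi => hy (interior_subset hi)⟩
  obtain ⟨w, -, hw1, hw2⟩ := h1 (interior Ω) (closure Ω)ᶜ isOpen_interior
    isClosed_closure.isOpen_compl hcov ⟨x, left_mem_segment ℝ x y, hxi⟩
    ⟨y, right_mem_segment ℝ x y, hyi⟩
  exact hw2 (subset_closure (interior_subset hw1))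

theorem lip_aux {Ω : Set E} {x y : E} (hx : x ∈ Ω) (hy : y ∉ Ω) :
    |sd Ω x - sd Ω y| ≤ ‖x - y‖ := by
  obtain ⟨w, hw, hd⟩ := exists_frontier_segment hx hy
  rw [frontier_eq_closure_inter_closure] at hw
  have h1 : infDist x Ωᶜ ≤ dist x w := by
    rw [← infDist_closure]
    exact infDist_le_dist_of_mem hw.2
  have h2 : infDist y Ω ≤ dist y w := by
    rw [← infDist_closure]
    exact infDist_le_dist_of_mem hw.1
  rw [sd_of_mem hx, sd_of_notMem hy, sub_neg_eq_add, abs_of_nonneg
    (add_nonneg infDist_nonneg infDist_nonneg), ← dist_eq_norm]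
  rw [dist_comm y w] at h2
  linarith

theorem lipschitz_sd (Ω : Set E) (_hn : Ω.Nonempty) (_hn' : Ωᶜ.Nonempty) (x y : E) :
    |sd Ω x - sd Ω y| ≤ ‖x - y‖ := by
  by_cases hx : x ∈ Ω
  · by_cases hy : y ∈ Ω
    · rw [sd_of_mem hx, sd_of_mem hy]
      have := (lipschitz_infDist_pt Ωᶜ).dist_le_mul x y
      rw [Real.dist_eq, dist_eq_norm] at this
      simpa using this
    · exact lip_aux hx hy
  · by_cases hy : y ∈ Ω
    · rw [abs_sub_comm, norm_sub_rev]
      exact lip_aux hy hx
    · rw [sd_of_notMem hx, sd_of_notMem hy]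
      have := (lipschitz_infDist_pt Ω).dist_le_mul y x
      rw [Real.dist_eq, dist_eq_norm] at this
      rw [norm_sub_rev, neg_sub_neg]
      simpa using this

theorem sd_pos_iff {Ω : Set E} (ho : IsOpen Ω) (_hn : Ω.Nonempty) (hn' : Ωᶜ.Nonempty) {x : E} :
    0 < sd Ω x ↔ x ∈ Ω := by
  constructor
  · intro h
    by_contra hx
    rw [sd_of_notMem hx] at h
    have := infDist_nonneg (x := x) (s := Ω)
    linarith
  · intro hx
    rw [sd_of_mem hx]
    refine lt_of_le_of_ne infDist_nonneg (fun h => ?_)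
    exact (ho.isClosed_compl.mem_iff_infDist_zero hn').2 h.symm hx

theorem sd_neg_iff {Ω : Set E} (_ho : IsOpen Ω) (hn : Ω.Nonempty) (_hn' : Ωᶜ.Nonempty) {x : E} :
    sd Ω x < 0 ↔ x ∉ closure Ω := by
  constructor
  · intro h hx
    unfold sd at h
    rw [(mem_closure_iff_infDist_zero hn).1 hx, sub_zero] at h
    exact absurd h (not_lt.2 infDist_nonneg)
  · intro hx
    rw [sd_of_notMem (fun h => hx (subset_closure h))]
    have h1 : infDist x Ω ≠ 0 := fun h => hx ((mem_closure_iff_infDist_zero hn).2 h)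
    have h2 := lt_of_le_of_ne infDist_nonneg h1.symm
    linarith

theorem sd_eq_zero_iff {Ω : Set E} (ho : IsOpen Ω) (hn : Ω.Nonempty) (hn' : Ωᶜ.Nonempty) {x : E} :
    sd Ω x = 0 ↔ x ∈ frontier Ω := by
  rw [frontier, ho.interior_eq, Set.mem_sdiff]
  constructor
  · intro h
    refine ⟨?_, ?_⟩
    · by_contra hx
      exact ((sd_neg_iff ho hn hn').2 hx).ne h
    · intro hx
      exact ((sd_pos_iff ho hn hn').2 hx).ne' h
  · rintro ⟨h1, h2⟩
    apply le_antisymm
    · exact not_lt.1 (fun h => h2 ((sd_pos_iff ho hn hn').1 h))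
    · exact not_lt.1 (fun h => (sd_neg_iff ho hn hn').1 h h1)

theorem exists_frontier_dist {Ω : Set E} (ho : IsOpen Ω) (hn : Ω.Nonempty) (hn' : Ωᶜ.Nonempty)
    (x : E) : ∃ y ∈ frontier Ω, ‖x - y‖ = |sd Ω x| := by
  by_cases hx : x ∈ Ω
  · obtain ⟨y, hy, hxy⟩ := ho.isClosed_compl.exists_infDist_eq_dist hn' x
    obtain ⟨w, hw, hd⟩ := exists_frontier_segment hx hy
    refine ⟨w, hw, ?_⟩
    have hw' : w ∈ Ωᶜ := by
      rw [frontier, ho.interior_eq] at hw
      exact hw.2
    have h1 : infDist x Ωᶜ ≤ dist x w := infDist_le_dist_of_mem hw'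
    have h2 : dist x w = infDist x Ωᶜ := by
      have := dist_nonneg (x := w) (y := y)
      linarith
    rw [sd_of_mem hx, abs_of_nonneg infDist_nonneg, ← dist_eq_norm, h2]
  · by_cases hx' : x ∈ closure Ω
    · have hf : x ∈ frontier Ω := by
        rw [frontier, ho.interior_eq]
        exact ⟨hx', hx⟩
      refine ⟨x, hf, ?_⟩
      rw [(sd_eq_zero_iff ho hn hn').2 hf]
      simp
    · obtain ⟨y, hy, hxy⟩ := isClosed_closure.exists_infDist_eq_dist hn.closure x
      rw [infDist_closure] at hxy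
      rw [sd_of_notMem hx, abs_neg, abs_of_nonneg infDist_nonneg]
      by_cases hyΩ : y ∈ Ω
      · obtain ⟨w, hw, hd⟩ := exists_frontier_segment hyΩ hx
        refine ⟨w, hw, ?_⟩
        have hw' : w ∈ closure Ω := frontier_subset_closure hw
        have h1 : infDist x Ω ≤ dist x w := by
          rw [← infDist_closure]
          exact infDist_le_dist_of_mem hw'
        have h2 := dist_nonneg (x := y) (y := w)
        rw [dist_comm y x, dist_comm w x] at hd
        rw [← dist_eq_norm]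
        linarith
      · refine ⟨y, ?_, ?_⟩
        · rw [frontier, ho.interior_eq]
          exact ⟨hy, hyΩ⟩
        · rw [← dist_eq_norm, hxy]

end Pool.Agent.Helper94.Curl
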