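import Pool.Agent.Helper94.Curl.Sd

/-! Packet C-G1: uniform transversality of Lipschitz domains. -/

set_option autoImplicit false

open MeasureTheory Set Filter Topology Metric
open scoped ContDiff RealInnerProductSpace
open Pool.Agent.Helper38.Curl

namespace Pool.Agent.Helper94.Curl

theorem horiz_add (a b : E) : horiz (a + b) = horiz a + horiz b := by
  ext i
  fin_cases i <;> simp [horiz]

theorem horiz_smul (t : ℝ) (a : E) : horiz (t • a) = t • horiz a := by
  ext i
  fin_cases i <;> simp [horiz]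

theorem horiz_bv2 : horiz (bv 2) = 0 := by
  ext i
  fin_cases i <;> simp [horiz, bv]

theorem bv2_two : (bv 2 : E) 2 = 1 := by
  simp [bv]

theorem norm_horiz_le (a : E) : ‖horiz a‖ ≤ ‖a‖ := by
  rw [EuclideanSpace.norm_eq, EuclideanSpace.norm_eq]
  apply Real.sqrt_le_sqrt
  simp only [Fin.sum_univ_two, Fin.sum_univ_three, horiz]
  simp
  positivity

theorem abs_apply_le (a : E) (i : Fin 3) : |a i| ≤ ‖a‖ := by
  have := PiLp.norm_apply_le a i
  simpa using this

theorem continuous_horiz : Continuous horiz := by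
  unfold horiz
  fun_prop

theorem exists_pos_le {α : Type*} (t : Finset α) (f : α → ℝ) (hf : ∀ a ∈ t, 0 < f a) :
    ∃ r : ℝ, 0 < r ∧ ∀ a ∈ t, r ≤ f a := by
  classical
  induction t using Finset.induction_on with
  | empty => exact ⟨1, one_pos, by simp⟩
  | insert a s ha ih =>
    obtain ⟨r, hr, h⟩ := ih (fun b hb => hf b (Finset.mem_insert_of_mem hb))
    refine ⟨min r (f a), lt_min hr (hf a (Finset.mem_insert_self a s)), ?_⟩
    intro b hb
    rcases Finset.mem_insert.1 hb with rfl | hb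
    · exact min_le_right _ _
    · exact (min_le_left _ _).trans (h b hb)

/-- Transversality near one boundary point. -/
theorem trans_local {Ω : Set E} (h : LipDom Ω) {p : E} (hp : p ∈ frontier Ω) :
    ∃ (r c : ℝ) (ν : E), 0 < r ∧ 0 < c ∧ ‖ν‖ = 1 ∧
      ∀ y ∈ frontier Ω ∩ ball p r, ∀ t ∈ Icc (0 : ℝ) r,
        c * t ≤ sd Ω (y + t • ν) ∧ sd Ω (y - t • ν) ≤ -(c * t) := by
  have ho := h.isOpen
  have hn : Ω.Nonempty := by
    rw [← closure_nonempty_iff]
    exact ⟨p, frontier_subset_closure hp⟩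
  have hn' : Ωᶜ.Nonempty := by
    rw [frontier, ho.interior_eq] at hp
    exact ⟨p, hp.2⟩
  obtain ⟨T, L, φ, r, hr, hφ, hΩ⟩ := h.lip p hp
  have hφ' : ∀ a b, |φ a - φ b| ≤ L * ‖a - b‖ := by
    intro a b
    have := hφ.dist_le_mul a b
    rwa [Real.dist_eq, dist_eq_norm] at this
  have hL : (0 : ℝ) ≤ L := L.2
  have hTν : T (T.symm (bv 2)) = bv 2 := T.apply_symm_apply _
  have hν : ‖T.symm (bv 2)‖ = 1 := by
    rw [LinearIsometryEquiv.norm_map]
    simp [bv]
  refine ⟨r / 4, 1 / ((L : ℝ) + 1), T.symm (bv 2), by positivity, by positivity, hν, ?_⟩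
  set ν := T.symm (bv 2) with hνd
  set c : ℝ := 1 / ((L : ℝ) + 1) with hc
  have hc0 : 0 < c := by rw [hc]; positivity
  have hc1 : c ≤ 1 := by
    rw [hc, div_le_one (by positivity)]
    linarith
  have hcL : (L + 1) * c = 1 := by
    rw [hc]; field_simp
  rintro y ⟨hyf, hyb⟩ t ⟨ht0, ht1⟩
  rw [mem_ball, dist_eq_norm] at hyb
  -- (a)
  have hyΩ : y ∉ Ω := by
    rw [frontier, ho.interior_eq] at hyf
    exact hyf.2
  have hyr : y ∈ ball p r := by
    rw [mem_ball, dist_eq_norm]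
    linarith
  have ha : φ (horiz (T y)) = T y 2 := by
    apply le_antisymm
    · by_contra hcon
      rw [not_le] at hcon
      have hop : IsOpen {q : E | T q 2 < φ (horiz (T q))} := by
        apply isOpen_lt
        · fun_prop
        · exact hφ.continuous.comp (continuous_horiz.comp T.continuous)
      have hcl := mem_closure_iff.1 (frontier_subset_closure hyf)
        ({q : E | T q 2 < φ (horiz (T q))} ∩ ball p r) (hop.inter isOpen_ball) ⟨hcon, hyr⟩
      obtain ⟨q, ⟨hq1, hq2⟩, hq3⟩ := hcl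
      have := (hΩ q hq2).1 hq3
      have hq1' : T q 2 < φ (horiz (T q)) := hq1
      linarith
    · exact not_lt.1 (fun hlt => hyΩ ((hΩ y hyr).2 hlt))
  have hup : ∀ d : E, ‖d‖ < c * t → y + t • ν + d ∈ Ω := by
    intro d hd
    have hqb : y + t • ν + d ∈ ball p r := by
      rw [mem_ball, dist_eq_norm]
      have e1 : y + t • ν + d - p = (y - p) + t • ν + d := by abel
      rw [e1]
      have h1 : ‖(y - p) + t • ν + d‖ ≤ ‖y - p‖ + ‖t • ν‖ + ‖d‖ :=
        (norm_add_le _ _).trans (by gcongr; exact norm_add_le _ _)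
      rw [norm_smul, hν, mul_one, Real.norm_eq_abs, abs_of_nonneg ht0] at h1
      have h2 : c * t ≤ 1 * t := mul_le_mul_of_nonneg_right hc1 ht0
      linarith
    rw [hΩ _ hqb]
    have e2 : T (y + t • ν + d) = T y + t • bv 2 + T d := by
      rw [map_add, map_add, map_smul, hTν]
    rw [e2, horiz_add, horiz_add, horiz_smul, horiz_bv2, smul_zero, add_zero]
    have e3 : (T y + t • bv 2 + T d) 2 = T y 2 + t + T d 2 := by
      simp [bv2_two]
    rw [e3, ← ha]
    have h3 := hφ' (horiz (T y) + horiz (T d)) (horiz (T y))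
    rw [add_sub_cancel_left, abs_le] at h3
    have h4 : ‖horiz (T d)‖ ≤ ‖d‖ := (norm_horiz_le _).trans (by rw [T.norm_map])
    have h5 : |T d 2| ≤ ‖d‖ := (abs_apply_le _ _).trans (by rw [T.norm_map])
    rw [abs_le] at h5
    have h6 : L * ‖horiz (T d)‖ ≤ L * ‖d‖ := mul_le_mul_of_nonneg_left h4 hL
    have h7 : (L + 1) * ‖d‖ < t := by
      calc (L + 1) * ‖d‖ < (L + 1) * (c * t) := mul_lt_mul_of_pos_left hd (by positivity)
        _ = t := by rw [← mul_assoc, hcL, one_mul]
    linarith [h3.2, h5.1]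
  have hdown : ∀ d : E, ‖d‖ < c * t → y - t • ν + d ∉ Ω := by
    intro d hd
    have hqb : y - t • ν + d ∈ ball p r := by
      rw [mem_ball, dist_eq_norm]
      have e1 : y - t • ν + d - p = (y - p) - t • ν + d := by abel
      rw [e1]
      have h1 : ‖(y - p) - t • ν + d‖ ≤ ‖y - p‖ + ‖t • ν‖ + ‖d‖ :=
        (norm_add_le _ _).trans (by gcongr; exact norm_sub_le _ _)
      rw [norm_smul, hν, mul_one, Real.norm_eq_abs, abs_of_nonneg ht0] at h1
      have h2 : c * t ≤ 1 * t := mul_le_mul_of_nonneg_right hc1 ht0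
      linarith
    rw [hΩ _ hqb, not_lt]
    have e2 : T (y - t • ν + d) = T y + (-t) • bv 2 + T d := by
      rw [map_add, map_sub, map_smul, hTν, neg_smul, sub_eq_add_neg]
    rw [e2, horiz_add, horiz_add, horiz_smul, horiz_bv2, smul_zero, add_zero]
    have e3 : (T y + (-t) • bv 2 + T d) 2 = T y 2 - t + T d 2 := by
      simp [bv2_two]
      ring
    rw [e3, ← ha]
    have h3 := hφ' (horiz (T y) + horiz (T d)) (horiz (T y))
    rw [add_sub_cancel_left, abs_le] at h3
    have h4 : ‖horiz (T d)‖ ≤ ‖d‖ := (norm_horiz_le _).trans (by rw [T.norm_map])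
    have h5 : |T d 2| ≤ ‖d‖ := (abs_apply_le _ _).trans (by rw [T.norm_map])
    rw [abs_le] at h5
    have h6 : L * ‖horiz (T d)‖ ≤ L * ‖d‖ := mul_le_mul_of_nonneg_left h4 hL
    have h7 : (L + 1) * ‖d‖ < t := by
      calc (L + 1) * ‖d‖ < (L + 1) * (c * t) := mul_lt_mul_of_pos_left hd (by positivity)
        _ = t := by rw [← mul_assoc, hcL, one_mul]
    linarith [h3.1, h5.2]
  rcases ht0.eq_or_lt with ht | ht
  · subst ht
    have : sd Ω y = 0 := (sd_eq_zero_iff ho hn hn').2 hyf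
    simp [this]
  have hct : 0 < c * t := mul_pos hc0 ht
  constructor
  · have hmem : y + t • ν ∈ Ω := by simpa using hup 0 (by simpa using hct)
    rw [sd_of_mem hmem, le_infDist hn']
    intro q hq
    by_contra hlt
    rw [not_le, dist_comm, dist_eq_norm] at hlt
    have := hup _ hlt
    rw [add_sub_cancel] at this
    exact hq this
  · have hmem : y - t • ν ∉ Ω := by simpa using hdown 0 (by simpa using hct)
    rw [sd_of_notMem hmem, neg_le_neg_iff, le_infDist hn]
    intro q hq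
    by_contra hlt
    rw [not_le, dist_comm, dist_eq_norm] at hlt
    have := hdown _ hlt
    rw [add_sub_cancel] at this
    exact this hq

theorem trans_of_lipDom {Ω : Set E} (h : LipDom Ω) : ∃ r₀ c₀ F, Trans Ω r₀ c₀ F := by
  classical
  have hcomp : IsCompact (frontier Ω) :=
    Metric.isCompact_of_isClosed_isBounded isClosed_frontier
      (h.isBounded.closure.subset frontier_subset_closure)
  have hloc : ∀ p : frontier Ω, ∃ (r c : ℝ) (ν : E), 0 < r ∧ 0 < c ∧ ‖ν‖ = 1 ∧
      ∀ y ∈ frontier Ω ∩ ball (p : E) r, ∀ t ∈ Icc (0 : ℝ) r,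
        c * t ≤ sd Ω (y + t • ν) ∧ sd Ω (y - t • ν) ≤ -(c * t) :=
    fun p => trans_local h p.2
  choose r c ν hr hc hν hm using hloc
  obtain ⟨S, hS⟩ := hcomp.elim_nhds_subcover' (fun p hp => ball p (r ⟨p, hp⟩ / 2))
    (fun p hp => ball_mem_nhds p (half_pos (hr ⟨p, hp⟩)))
  obtain ⟨r₀, hr₀, hr₁⟩ := exists_pos_le S (fun p => r p / 2) (fun p _ => half_pos (hr p))
  obtain ⟨c₀, hc₀, hc₁⟩ := exists_pos_le S c (fun p _ => hc p)
  refine ⟨r₀, c₀, S.image ν, ?_⟩
  refine ⟨hr₀, hc₀, ?_, ?_⟩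
  · intro v hv
    obtain ⟨p, -, rfl⟩ := Finset.mem_image.1 hv
    exact hν p
  · intro x hx
    obtain ⟨p, hp, hxp⟩ := mem_iUnion₂.1 (hS hx)
    refine ⟨ν p, Finset.mem_image_of_mem ν hp, ?_⟩
    rintro y ⟨hyf, hyx⟩ t ⟨ht0, ht1⟩
    have h1 : x ∈ ball (p : E) (r p / 2) := hxp
    have h2 := hr₁ p hp
    have hrp := hr p
    have hyp : y ∈ ball (p : E) (r p) := by
      rw [mem_ball] at h1 hyx ⊢
      have := dist_triangle y x p
      linarith
    obtain ⟨h3, h4⟩ := hm p y ⟨hyf, hyp⟩ t ⟨ht0, by linarith⟩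
    have h5 : c₀ * t ≤ c p * t := mul_le_mul_of_nonneg_right (hc₁ p hp) ht0
    constructor <;> linarith

end Pool.Agent.Helper94.Curl
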